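import Pool.Agent.W2helper20.BC.Stm

/-!
# The reversal of geodesics preserves the measure
-/

set_option autoImplicit false

namespace Pool.Agent.W2helper98.BC

open Set Metric MeasureTheory
open scoped ContDiff InnerProductSpace ENNReal
open Pool.Agent.Q176.BR Pool.Agent.W2helper20.BC

variable {n : ℕ} {g : Fld n}

/-! ### Determinants -/

/-- the matrix of a linear map -/
noncomputable def mt (A : E n →L[ℝ] E n) : Matrix (Fin n) (Fin n) ℝ := Matrix.of fun i j => A (bs j) i

theorem det_mt (A : E n →L[ℝ] E n) : (mt A).det = A.det := by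
  have h : mt A = LinearMap.toMatrix (EuclideanSpace.basisFun (Fin n) ℝ).toBasis
      (EuclideanSpace.basisFun (Fin n) ℝ).toBasis (A : E n →ₗ[ℝ] E n) := by
    ext i j
    simp [mt, LinearMap.toMatrix_apply, bs]
  rw [h, LinearMap.det_toMatrix]

theorem form_left (a : E n →L[ℝ] E n →L[ℝ] ℝ) (v w : E n) : a v w = ∑ k, v k * a (bs k) w := by
  conv_lhs => rw [← sum_bs v]
  simp [map_sum, map_smul]

theorem form_right (a : E n →L[ℝ] E n →L[ℝ] ℝ) (v w : E n) : a v w = ∑ k, a v (bs k) * w k := by
  conv_lhs => rw [← sum_bs w]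
  simp [map_sum, map_smul, mul_comm]

theorem det_symm (h : P_SYM) (hg : IsSimple g) {x y : E n} (hx : x ∈ ball (0 : E n) 1)
    (hy : y ∈ ball (0 : E n) 1) : rho g y * (dlg g y x).det = rho g x * (dlg g x y).det := by
  have h1 : (mt (dlg g y x)).transpose * gram (g y) = gram (g x) * mt (dlg g x y) := by
    ext i j
    rw [Matrix.mul_apply, Matrix.mul_apply]
    have e1 : ∑ k, (mt (dlg g y x)).transpose i k * gram (g y) k j =
        g y (dlg g y x (bs i)) (bs j) := by
      rw [form_left (g y) (dlg g y x (bs i)) (bs j)]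
      rfl
    have e2 : ∑ k, gram (g x) i k * mt (dlg g x y) k j = g x (bs i) (dlg g x y (bs j)) := by
      rw [form_right (g x) (bs i) (dlg g x y (bs j))]
      rfl
    rw [e1, e2, h n g hg x hx y hy (bs j) (bs i)]
    exact hg.symm x _ _
  have h2 := congrArg Matrix.det h1
  rw [Matrix.det_mul, Matrix.det_mul, Matrix.det_transpose, det_mt, det_mt] at h2
  unfold rho
  rw [mul_comm, h2]

/-! ### The retraction -/

/-- the retraction onto the closed ball -/
noncomputable def rt (z : E n) : E n := (max 1 ‖z‖)⁻¹ • z

theorem continuous_rt : Continuous (rt : E n → E n) := by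
  unfold rt
  refine Continuous.smul (Continuous.inv₀ (continuous_const.max continuous_norm) fun z => ?_)
    continuous_id
  exact (lt_of_lt_of_le one_pos (le_max_left _ _)).ne'

theorem rt_mem (z : E n) : rt z ∈ M n := by
  rw [mem_closedBall_zero_iff]
  unfold rt
  have h1 : (0 : ℝ) < max 1 ‖z‖ := lt_of_lt_of_le one_pos (le_max_left _ _)
  rw [norm_smul, norm_inv, Real.norm_of_nonneg h1.le, inv_mul_le_iff₀ h1, mul_one]
  exact le_max_right _ _

theorem rt_eq {z : E n} (hz : z ∈ ball (0 : E n) 1) : rt z = z := by
  rw [mem_ball_zero_iff] at hz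
  unfold rt
  rw [max_eq_left hz.le, inv_one, one_smul]

/-! ### Measurability -/

/-- the inverse exponential map on the whole space -/
noncomputable def LG (g : Fld n) (x y : E n) : E n := lg g (rt x) (rt y)

theorem measurable_LG (hg : IsSimple g) : Measurable (Function.uncurry (LG g)) := by
  have key : ∀ x : E n, Continuous fun y : E n => lg g (rt x) (rt y) := fun x =>
    ((hg.contDiffOn_lg (rt_mem x)).continuousOn).comp_continuous continuous_rt rt_mem
  refine measurable_uncurry_of_continuous_of_measurable (fun y => ?_) fun x => (key x).measurable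
  have h1 : (fun x : E n => LG g x y) = fun x => -(ilg g (rt y) (rt x) (lg g (rt y) (rt x))) := by
    funext x
    exact hg.lg_symm (rt_mem y) (rt_mem x)
  rw [h1]
  have h2 : Continuous fun x : E n => ilg g (rt y) (rt x) :=
    (hg.continuousOn_ilg (rt_mem y)).comp_continuous continuous_rt rt_mem
  exact (h2.clm_apply (key y)).neg

/-- the distance to the complement of the ball -/
noncomputable def chi (x : E n) : ℝ := max 0 (1 - ‖x‖)

theorem continuous_chi : Continuous (chi : E n → ℝ) :=
  continuous_const.max (continuous_const.sub continuous_norm)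

theorem chi_pos {x : E n} (hx : x ∈ ball (0 : E n) 1) : 0 < chi x := by
  rw [mem_ball_zero_iff] at hx
  exact lt_max_of_lt_right (by linarith)

theorem chi_zero {x : E n} (hx : x ∉ ball (0 : E n) 1) : chi x = 0 := by
  rw [mem_ball_zero_iff, not_lt] at hx
  exact max_eq_left (by linarith)

/-- the kernel, multiplied by a function vanishing at the boundary -/
noncomputable def KC (g : Fld n) (x y : E n) : ℝ :=
  chi x * (chi y * (rho g x * |(dlg g x (rt y)).det|))

theorem continuous_det : Continuous fun A : E n →L[ℝ] E n => A.det := by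
  have h : (fun A : E n →L[ℝ] E n => A.det) = fun A => (mt A).det := by
    funext A
    rw [det_mt]
  rw [h]
  refine Continuous.matrix_det (continuous_matrix fun i j => ?_)
  have h1 : Continuous fun A : E n →L[ℝ] E n => A (bs j) := continuous_id.clm_apply continuous_const
  exact (EuclideanSpace.proj i : E n →L[ℝ] ℝ).continuous.comp h1

theorem continuous_dlg (hg : IsSimple g) {x : E n} (hx : x ∈ ball (0 : E n) 1) :
    Continuous fun y : E n => rho g x * |(dlg g x (rt y)).det| :=
  (continuous_det.comp ((hg.continuousOn_dlg (ball_subset_closedBall hx)).comp_continuous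
    continuous_rt rt_mem)).abs.const_mul _

theorem measurable_KC (h : P_SYM) (hg : IsSimple g) : Measurable (Function.uncurry (KC g)) := by
  have h1 : ∀ x : E n, Continuous (KC g x) := by
    intro x
    by_cases hx : x ∈ ball (0 : E n) 1
    · exact (continuous_chi.mul (continuous_dlg hg hx)).const_mul _
    · have : KC g x = fun _ => 0 := by
        funext y
        unfold KC
        rw [chi_zero hx, zero_mul]
      rw [this]
      exact continuous_const
  refine measurable_uncurry_of_continuous_of_measurable (fun y => ?_) fun x => (h1 x).measurable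
  by_cases hy : y ∈ ball (0 : E n) 1
  · have h2 : (fun x : E n => KC g x y) =
        fun x => chi x * (chi y * (rho g y * |(dlg g y (rt x)).det|)) := by
      funext x
      unfold KC
      by_cases hx : x ∈ ball (0 : E n) 1
      · have h3 := congrArg abs (det_symm h hg hx hy)
        have h4 : 0 < rho g x := hg.toIsMetric.det_pos x
        have h5 : 0 < rho g y := hg.toIsMetric.det_pos y
        rw [abs_mul, abs_mul, abs_of_pos h4, abs_of_pos h5] at h3
        rw [rt_eq hx, rt_eq hy, h3]
      · rw [chi_zero hx, zero_mul, zero_mul]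
    rw [h2]
    exact continuous_chi.mul ((continuous_dlg hg hy).const_mul _)
  · have : (fun x : E n => KC g x y) = fun _ => 0 := by
      funext x
      unfold KC
      rw [chi_zero hy, zero_mul, mul_zero]
    rw [this]
    exact continuous_const

/-! ### The formula -/

/-- the integrand -/
noncomputable def HH (g : Fld n) (F : E n × E n → ℝ≥0∞) (x y : E n) : ℝ≥0∞ :=
  F (x, LG g x y) * ENNReal.ofReal (KC g x y / (chi x * chi y))

theorem measurable_HH (h : P_SYM) (hg : IsSimple g) {F : E n × E n → ℝ≥0∞} (hF : Measurable F) :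
    Measurable (Function.uncurry (HH g F)) := by
  have h1 : Measurable fun p : E n × E n => F (p.1, LG g p.1 p.2) :=
    hF.comp (measurable_fst.prodMk (measurable_LG hg))
  have h2 : Measurable fun p : E n × E n => KC g p.1 p.2 / (chi p.1 * chi p.2) :=
    (measurable_KC h hg).div ((continuous_chi.measurable.comp measurable_fst).mul
      (continuous_chi.measurable.comp measurable_snd))
  exact h1.mul h2.ennreal_ofReal

theorem KC_div {x y : E n} (hx : x ∈ ball (0 : E n) 1) (hy : y ∈ ball (0 : E n) 1) :
    KC g x y / (chi x * chi y) = rho g x * |(dlg g x y).det| := by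
  have h1 := (chi_pos hx).ne'
  have h2 := (chi_pos hy).ne'
  unfold KC
  rw [rt_eq hy]
  field_simp

theorem change (hg : IsSimple g) {x : E n} (hx : x ∈ ball (0 : E n) 1) (G : E n → ℝ≥0∞) :
    ∫⁻ v in D g x, G v = ∫⁻ y in ball (0 : E n) 1, ENNReal.ofReal |(dlg g x y).det| * G (lg g x y) := by
  have hxM := ball_subset_closedBall hx
  refine lintegral_image_eq_lintegral_abs_det_fderiv_mul volume measurableSet_ball
    (fun y hy => ((hg.hasFDeriv hxM (ball_subset_closedBall hy)).mono ball_subset_closedBall)) ?_ G
  intro y hy y' hy' h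
  have h1 := hg.ex_lg hxM (ball_subset_closedBall hy)
  have h2 := hg.ex_lg hxM (ball_subset_closedBall hy')
  rw [← h1, ← h2, h]

theorem lhs_eq (hg : IsSimple g) (F : E n × E n → ℝ≥0∞) :
    ∫⁻ x in ball (0 : E n) 1, ∫⁻ v in D g x, F (x, v) * ENNReal.ofReal (rho g x) =
      ∫⁻ x in ball (0 : E n) 1, ∫⁻ y in ball (0 : E n) 1, HH g F x y := by
  refine setLIntegral_congr_fun measurableSet_ball fun x hx => ?_
  rw [change hg hx]
  refine setLIntegral_congr_fun measurableSet_ball fun y hy => ?_
  have h1 : 0 < rho g x := hg.toIsMetric.det_pos x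
  simp only [HH, LG]
  rw [KC_div hx hy, rt_eq hx, rt_eq hy, ENNReal.ofReal_mul h1.le]
  ring

theorem rhs_eq (h : P_SYM) (hg : IsSimple g) (F : E n × E n → ℝ≥0∞) :
    ∫⁻ x in ball (0 : E n) 1, ∫⁻ v in D g x, F (rev g (x, v)) * ENNReal.ofReal (rho g x) =
      ∫⁻ x in ball (0 : E n) 1, ∫⁻ y in ball (0 : E n) 1, HH g F y x := by
  refine setLIntegral_congr_fun measurableSet_ball fun x hx => ?_
  rw [change hg hx]
  refine setLIntegral_congr_fun measurableSet_ball fun y hy => ?_
  have h1 : 0 < rho g x := hg.toIsMetric.det_pos x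
  have h2 : 0 < rho g y := hg.toIsMetric.det_pos y
  have h3 := congrArg abs (det_symm h hg hx hy)
  rw [abs_mul, abs_mul, abs_of_pos h1, abs_of_pos h2] at h3
  have h4 : rev g (x, lg g x y) = (y, lg g y x) := by
    unfold rev
    simp only
    rw [hg.ex_lg (ball_subset_closedBall hx) (ball_subset_closedBall hy)]
  simp only [HH, LG]
  rw [h4, KC_div hy hx, rt_eq hx, rt_eq hy, h3, ENNReal.ofReal_mul h1.le]
  ring

/-- The reversal of geodesics preserves the measure. -/
theorem p_inv (h : P_SYM) : P_INV := by
  intro n g hg F hF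
  rw [lhs_eq hg F, rhs_eq h hg F]
  exact lintegral_lintegral_swap (measurable_HH h hg hF).aemeasurable

end Pool.Agent.W2helper98.BC
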